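import Mathlib

/-!
# THEOREM BEAU (no gaps): a product of functions with zeros is small

PROOF. Induction on `S` (for all `B`, `R`). `S = ∅`: `closedBall y (r / 8) ⊆ ball y r`. `insert i S`: `h i z0 = 0`, `z0 ∈ closedBall y (r / 8)`; `h i z = (z - z0) * g z` on the ball, `g = dslope (h i) z0` (holomorphic on `ball y r`: `Complex.differentiableOn_dslope`). `R' = R * g`. For `r / 8 < r' < r` and `‖z - y‖ = r'`: `‖z - z0‖ ≥ r' - r / 8`, so `‖R' z ∏_S h‖ ≤ B / (r' - r / 8)` there, and in `closedBall y r'` by the maximum principle (`Complex.norm_le_of_forall_mem_frontier_norm_le`); `r' → r`: `≤ B' = B / (7 r / 8)` on `ball y r`. The induction hypothesis for `R', B'`: on `closedBall y (r / 8)`: `‖R' z ∏_S h‖ ≤ B' (2 / 7) ^ card S`; and `‖z - z0‖ ≤ r / 4`: `(r / 4) B' = (2 / 7) B`.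
-/

set_option autoImplicit false

open Filter Topology Polynomial Metric Set MeasureTheory

namespace Pool.Agent.H43.BE

private lemma bla_div {y : ℂ} {r : ℝ} (hr : 0 < r) {z0 : ℂ} (hz0 : z0 ∈ closedBall y (r / 8)) {G : ℂ → ℂ}
    (hG : DifferentiableOn ℂ G (ball y r)) {B : ℝ} (hB : ∀ z ∈ ball y r, ‖(z - z0) * G z‖ ≤ B) :
    ∀ z ∈ ball y r, ‖G z‖ ≤ B / (7 * r / 8) := by
  intro z hz
  have hB0 : 0 ≤ B := (norm_nonneg _).trans (hB z hz)
  rw [mem_ball, dist_eq_norm] at hz
  rw [mem_closedBall, dist_eq_norm] at hz0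
  set ρ : ℝ := max ‖z - y‖ (r / 8) with hρ
  have hρr : ρ < r := max_lt hz (by linarith)
  have key : ∀ r' ∈ Ioo ρ r, ‖G z‖ * (r' - r / 8) ≤ B := by
    intro r' hr'
    have h1 : ‖z - y‖ < r' := lt_of_le_of_lt (le_max_left _ _) hr'.1
    have h2 : r / 8 < r' := lt_of_le_of_lt (le_max_right _ _) hr'.1
    have h3 : 0 < r' := by linarith
    have hcl : closedBall y r' ⊆ ball y r := closedBall_subset_ball hr'.2
    have h4 : DiffContOnCl ℂ G (ball y r') := hG.diffContOnCl_ball hcl
    have h5 : ∀ w ∈ frontier (ball y r'), ‖G w‖ ≤ B / (r' - r / 8) := by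
      intro w hw
      rw [frontier_ball y h3.ne', mem_sphere, dist_eq_norm] at hw
      have h6 : w ∈ ball y r := by
        rw [mem_ball, dist_eq_norm, hw]
        exact hr'.2
      have h7 := hB w h6
      rw [norm_mul] at h7
      have h8 : r' - r / 8 ≤ ‖w - z0‖ := by
        have h9 : ‖w - y‖ ≤ ‖w - z0‖ + ‖z0 - y‖ := by
          have := norm_add_le (w - z0) (z0 - y)
          rwa [sub_add_sub_cancel] at this
        linarith
      rw [le_div_iff₀ (by linarith)]
      calc ‖G w‖ * (r' - r / 8) ≤ ‖G w‖ * ‖w - z0‖ := mul_le_mul_of_nonneg_left h8 (norm_nonneg _)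
        _ = ‖w - z0‖ * ‖G w‖ := mul_comm _ _
        _ ≤ B := h7
    have h10 : z ∈ closure (ball y r') := by
      apply subset_closure
      rw [mem_ball, dist_eq_norm]
      exact h1
    have h11 := Complex.norm_le_of_forall_mem_frontier_norm_le isBounded_ball h4 h5 h10
    rwa [le_div_iff₀ (by linarith)] at h11
  have h12 : Tendsto (fun r' : ℝ => ‖G z‖ * (r' - r / 8)) (𝓝[<] r) (𝓝 (‖G z‖ * (r - r / 8))) := by
    have : Continuous (fun r' : ℝ => ‖G z‖ * (r' - r / 8)) := by fun_prop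
    exact (this.tendsto r).mono_left nhdsWithin_le_nhds
  have h13 : ‖G z‖ * (r - r / 8) ≤ B :=
    le_of_tendsto h12 (Filter.mem_of_superset (Ioo_mem_nhdsLT hρr) key)
  rw [le_div_iff₀ (by linarith)]
  calc ‖G z‖ * (7 * r / 8) = ‖G z‖ * (r - r / 8) := by ring
    _ ≤ B := h13

theorem bla {y : ℂ} {r : ℝ} (hr : 0 < r) {h : ℕ → ℂ → ℂ} (S : Finset ℕ) (hS : ∀ i ∈ S, DifferentiableOn ℂ (h i) (ball y r))
    (hz : ∀ i ∈ S, ∃ z ∈ closedBall y (r / 8), h i z = 0) {R : ℂ → ℂ} (hR : DifferentiableOn ℂ R (ball y r)) {B : ℝ}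
    (hB : ∀ z ∈ ball y r, ‖R z * ∏ i ∈ S, h i z‖ ≤ B) :
    ∀ z ∈ closedBall y (r / 8), ‖R z * ∏ i ∈ S, h i z‖ ≤ B * (2 / 7) ^ S.card := by
  classical
  induction S using Finset.induction_on generalizing R B with
  | empty =>
    intro z hz'
    rw [Finset.card_empty, pow_zero, mul_one]
    exact hB z (closedBall_subset_ball (by linarith) hz')
  | insert i S hi ih =>
    obtain ⟨z0, hz0, h0⟩ := hz i (Finset.mem_insert_self i S)
    have hz0b : z0 ∈ ball y r := closedBall_subset_ball (by linarith) hz0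
    have hslope : ∀ z, h i z = (z - z0) * dslope (h i) z0 z := by
      intro z
      have := sub_smul_dslope (h i) z0 z
      rw [h0, sub_zero, smul_eq_mul] at this
      exact this.symm
    have hg : DifferentiableOn ℂ (dslope (h i) z0) (ball y r) :=
      (Complex.differentiableOn_dslope (isOpen_ball.mem_nhds hz0b)).2 (hS i (Finset.mem_insert_self i S))
    have hR' : DifferentiableOn ℂ (fun z => R z * dslope (h i) z0 z) (ball y r) := hR.mul hg
    have hprod : DifferentiableOn ℂ (fun z => ∏ j ∈ S, h j z) (ball y r) :=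
      DifferentiableOn.fun_finsetProd fun j hj => hS j (Finset.mem_insert_of_mem hj)
    have hfac : ∀ z, R z * ∏ j ∈ insert i S, h j z = (z - z0) * (R z * dslope (h i) z0 z * ∏ j ∈ S, h j z) := by
      intro z
      rw [Finset.prod_insert hi, hslope z]
      ring
    have hG : DifferentiableOn ℂ (fun z => R z * dslope (h i) z0 z * ∏ j ∈ S, h j z) (ball y r) := hR'.mul hprod
    have hB' := bla_div hr hz0 hG (B := B) (fun z hz' => by
      rw [← hfac z]
      exact hB z hz')
    have h1 := ih (fun j hj => hS j (Finset.mem_insert_of_mem hj)) (fun j hj => hz j (Finset.mem_insert_of_mem hj)) hR' hB'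
    intro z hz'
    have h2 := h1 z hz'
    rw [hfac z, norm_mul, Finset.card_insert_of_notMem hi]
    have h3 : ‖z - z0‖ ≤ r / 4 := by
      rw [mem_closedBall, dist_eq_norm] at hz' hz0
      have h4 : ‖z - z0‖ ≤ ‖z - y‖ + ‖z0 - y‖ := by
        have := norm_sub_le (z - y) (z0 - y)
        rwa [sub_sub_sub_cancel_right] at this
      linarith
    calc ‖z - z0‖ * ‖R z * dslope (h i) z0 z * ∏ j ∈ S, h j z‖
        ≤ (r / 4) * (B / (7 * r / 8) * (2 / 7) ^ S.card) := mul_le_mul h3 h2 (norm_nonneg _) (by positivity)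
      _ = B * (2 / 7) ^ (S.card + 1) := by
        rw [pow_succ]
        field_simp
        ring

end Pool.Agent.H43.BE
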