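import Pool.Agent.H18.UP.BAS
import Pool.Agent.H44.RC.CCO
import Pool.Agent.H64.NC.CHU
import Pool.Agent.H3.NC.PRC

/-!
# THEOREM BEAU (no gaps): the critical times are zeros of the derivative

PROOF. `f = rat a b`, continuous and open (`rat_continuous`, `rat_open` or the like: see H91/Fatou, H44/Fatou). Let `m = k - 1`, `j ∈ CT f (f y) m δ`: `j < m`, a critical `c'` is in `Wk f (f y) m δ j = connectedComponentIn {z | chord (f^[m - j] z) (f^[m] (f y)) < δ} (f^[j] (f y))`. Let `D = {z | chord z (f^[k] y) < δ}` (open: as `prc_op` in H3/NC/PRC), `CC f n D x = connectedComponentIn (f^[n] ⁻¹' D) x` (H44/RC/CCO). So `c' ∈ W' = CC f (k - (j + 1)) D (f^[j + 1] y)`.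
(1) `W = CC f k D y` does not meet the circle `‖z - y‖ = s` of the plane: there `f^[k] z = gg^[k] z`, `f^[k] y = gg^[k] y` (`rat_it`, `hpre`), and the chordal distance is `‖u - w‖ / (√(1 + ‖u‖ ^ 2) √(1 + ‖w‖ ^ 2)) ≥ η / (1 + (R0 + 1) ^ 2) ≥ δ`. `W` is preconnected, contains `y`; the images in the sphere of `ball y s` and of the complement of the image of `closedBall y s` (a compact, so closed set) are open, disjoint, and cover `W`: `W ⊆ (↑) '' ball y s`.
(2) `f^[j + 1] '' CC f (j + 1) W' y = W'` by `cc_onto` (`W'` is open and preconnected: `cc_open`, `cc_pre`; `f^[j + 1] y ∈ W'`: `cc_mem`), and `CC f (j + 1) W' y ⊆ W` (`cc_max`: preconnected, contains `y`, `f^[k] x = f^[k - (j + 1)] (f^[j + 1] x) ∈ D`). So there is `x ∈ W`, `x = z ∈ ball y s`, `f^[j + 1] z = c'`. The orbit of `z` up to the time `k > j + 1` is in the plane (`hpre`): `c' = gg^[j + 1] z`, `b c' ≠ 0`, `ww c' = 0` (`crit_iff`: `IsCrit f c' ↔ ww c' = 0`), `dg a b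 c' = 0`.
(3) `j ↦ j + 1` maps `CT` injectively into the filter set: `Set.ncard_le_ncard_of_injOn` and `Set.ncard_coe_finset`.
-/

set_option autoImplicit false

open Filter Topology Polynomial Metric Set MeasureTheory

namespace Pool.Agent.H43.BE

open Pool.Agent.H44.Fatou (rat rat_continuous)
open Pool.Agent.H32.BT (IsCrit)
open Pool.Agent.H61.TT Pool.Agent.H57.CP Pool.Agent.H3.NC
open Pool.Agent.H18.UP
open scoped Classical in
theorem ctb {d : ℕ} {a b : Polynomial ℂ} {J : Set ℂ} {δ0 R0 : ℝ} (h : Geo d a b J δ0) (hR0 : 0 ≤ R0) {y : ℂ} {k : ℕ} (hk : 0 < k) {s η : ℝ}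
    (hs : 0 < s) (hη : 0 < η) (hpre : ∀ z ∈ closedBall y s, z ∈ (pre a b)^[k] univ ∧ ‖(gg a b)^[k] z‖ ≤ R0 + 1)
    (hc : ∀ z, ‖z - y‖ = s → η ≤ ‖(gg a b)^[k] z - (gg a b)^[k] y‖) {δ : ℝ} (hδ : 0 < δ) (hδη : δ * (1 + (R0 + 1) ^ 2) ≤ η) :
    (CT (rat a b) (rat a b (y : OnePoint ℂ)) (k - 1) δ).ncard ≤
      ((Finset.range k).filter fun j => ∃ z ∈ closedBall y s, dg a b ((gg a b)^[j] z) = 0).card := by
  have hd0 : 0 < max a.natDegree b.natDegree := by
    rw [h.rt.deg]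
    have := h.rt.hd
    omega
  have hf : Continuous (rat a b) := rat_continuous h.rt.cop
  have ho : IsOpenMap (rat a b) := Pool.Agent.H32.BT.rat_open h.rt.cop hd0
  obtain ⟨D, hDd⟩ : ∃ D : Set (OnePoint ℂ), D = {z | Pool.Agent.H35.EX.chord z ((rat a b)^[k] (y : OnePoint ℂ)) < δ} := ⟨_, rfl⟩
  have hD : IsOpen D := by
    have h1 : D = {z | Pool.Agent.H35.EX.chord ((rat a b)^[k] (y : OnePoint ℂ)) z < δ} := by
      rw [hDd]
      ext z
      rw [mem_ofPred_eq, mem_ofPred_eq, Pool.Agent.H35.EX.chord_comm]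
    rw [h1]
    exact Pool.Agent.H44.RC.ch_ball _ _
  have hyD : (rat a b)^[k] (y : OnePoint ℂ) ∈ D := by
    rw [hDd]
    show Pool.Agent.H35.EX.chord ((rat a b)^[k] (y : OnePoint ℂ)) ((rat a b)^[k] (y : OnePoint ℂ)) < δ
    rw [Pool.Agent.H44.RR.chord_zero]
    exact hδ
  -- (1) the component of `y`
  have hit : ∀ z ∈ closedBall y s, (rat a b)^[k] (z : OnePoint ℂ) = ((gg a b)^[k] z : ℂ) :=
    fun z hz => rat_it (mem_pre.1 (hpre z hz).1).1 k le_rfl
  have hyb : y ∈ closedBall y s := mem_closedBall_self hs.le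
  have hW : Pool.Agent.H44.RC.CC (rat a b) k D (y : OnePoint ℂ) ⊆ ((↑) : ℂ → OnePoint ℂ) '' ball y s := by
    have h1 : IsOpen (((↑) : ℂ → OnePoint ℂ) '' ball y s) :=
      OnePoint.isOpenEmbedding_coe.isOpenMap _ isOpen_ball
    have h2 : IsOpen (((↑) : ℂ → OnePoint ℂ) '' closedBall y s)ᶜ :=
      ((isCompact_closedBall y s).image OnePoint.continuous_coe).isClosed.isOpen_compl
    have h3 : Pool.Agent.H44.RC.CC (rat a b) k D (y : OnePoint ℂ) ⊆ ((↑) : ℂ → OnePoint ℂ) '' ball y s ∪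
        (((↑) : ℂ → OnePoint ℂ) '' closedBall y s)ᶜ := by
      intro x hx
      by_cases hxc : x ∈ ((↑) : ℂ → OnePoint ℂ) '' closedBall y s
      · left
        obtain ⟨z, hz, rfl⟩ := hxc
        refine ⟨z, ?_, rfl⟩
        rw [mem_closedBall, dist_eq_norm] at hz
        rw [mem_ball, dist_eq_norm]
        refine lt_of_le_of_ne hz fun he => ?_
        have hzb : z ∈ closedBall y s := by
          rw [mem_closedBall, dist_eq_norm]
          exact hz
        have h4 := Pool.Agent.H44.RC.cc_sub hx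
        rw [hDd] at h4
        have h5 : Pool.Agent.H35.EX.chord ((rat a b)^[k] (z : OnePoint ℂ)) ((rat a b)^[k] (y : OnePoint ℂ)) < δ := h4
        rw [hit z hzb, hit y hyb] at h5
        have h6 : ‖(gg a b)^[k] z - (gg a b)^[k] y‖ /
            (√(1 + ‖(gg a b)^[k] z‖ ^ 2) * √(1 + ‖(gg a b)^[k] y‖ ^ 2)) < δ := h5
        have hq : ∀ w : ℂ, ‖w‖ ≤ R0 + 1 → √(1 + ‖w‖ ^ 2) ≤ √(1 + (R0 + 1) ^ 2) := fun w hw =>
          Real.sqrt_le_sqrt (by
            have := pow_le_pow_left₀ (norm_nonneg w) hw 2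
            linarith)
        have h7 : 0 < 1 + (R0 + 1) ^ 2 := by positivity
        have h8 : √(1 + ‖(gg a b)^[k] z‖ ^ 2) * √(1 + ‖(gg a b)^[k] y‖ ^ 2) ≤ 1 + (R0 + 1) ^ 2 := by
          have h9 := mul_le_mul (hq _ (hpre z hzb).2) (hq _ (hpre y hyb).2) (Real.sqrt_nonneg _) (Real.sqrt_nonneg _)
          rwa [Real.mul_self_sqrt h7.le] at h9
        have h9 : 0 < √(1 + ‖(gg a b)^[k] z‖ ^ 2) * √(1 + ‖(gg a b)^[k] y‖ ^ 2) := by positivity
        rw [div_lt_iff₀ h9] at h6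
        have h10 := hc z he
        have h11 := mul_le_mul_of_nonneg_left h8 hδ.le
        linarith
      · right
        exact hxc
    by_contra hcon
    rw [not_subset] at hcon
    obtain ⟨x, hx, hx'⟩ := hcon
    have h4 := (Pool.Agent.H44.RC.cc_pre k D (y : OnePoint ℂ)) _ _ h1 h2 h3
      ⟨_, Pool.Agent.H44.RC.cc_mem hyD, ⟨y, mem_ball_self hs, rfl⟩⟩
      ⟨x, hx, (h3 hx).resolve_left hx'⟩
    obtain ⟨w, -, ⟨z, hz, hzw⟩, hw2⟩ := h4
    exact hw2 ⟨z, ball_subset_closedBall hz, hzw⟩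
  -- (2) critical times
  have hkey : ∀ j ∈ CT (rat a b) (rat a b (y : OnePoint ℂ)) (k - 1) δ,
      j + 1 ∈ (((Finset.range k).filter fun j => ∃ z ∈ closedBall y s, dg a b ((gg a b)^[j] z) = 0 : Finset ℕ) : Set ℕ) := by
    rintro j ⟨hj, c', hcr, hcW⟩
    have e1 : Wk (rat a b) (rat a b (y : OnePoint ℂ)) (k - 1) δ j =
        Pool.Agent.H44.RC.CC (rat a b) (k - (j + 1)) D ((rat a b)^[j + 1] (y : OnePoint ℂ)) := by
      have e2 : k - 1 - j = k - (j + 1) := by omega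
      have e3 : (rat a b)^[k - 1] (rat a b (y : OnePoint ℂ)) = (rat a b)^[k] (y : OnePoint ℂ) := by
        rw [← Function.iterate_succ_apply]
        congr 2
        omega
      have e4 : (rat a b)^[j] (rat a b (y : OnePoint ℂ)) = (rat a b)^[j + 1] (y : OnePoint ℂ) :=
        (Function.iterate_succ_apply _ _ _).symm
      unfold Wk Pool.Agent.H44.RC.CC
      rw [e2, e3, e4, hDd]
      rfl
    rw [e1] at hcW
    obtain ⟨W', hW'd⟩ : ∃ W', W' = Pool.Agent.H44.RC.CC (rat a b) (k - (j + 1)) D ((rat a b)^[j + 1] (y : OnePoint ℂ)) :=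
      ⟨_, rfl⟩
    rw [← hW'd] at hcW
    have hadd : ∀ x : OnePoint ℂ, (rat a b)^[k - (j + 1)] ((rat a b)^[j + 1] x) = (rat a b)^[k] x := by
      intro x
      rw [← Function.iterate_add_apply]
      congr 2
      omega
    have hy' : (rat a b)^[j + 1] (y : OnePoint ℂ) ∈ W' := by
      rw [hW'd]
      refine Pool.Agent.H44.RC.cc_mem ?_
      rw [hadd]
      exact hyD
    have hW'o : IsOpen W' := by
      rw [hW'd]
      exact Pool.Agent.H44.RC.cc_open hf _ hD _
    have hW'p : IsPreconnected W' := by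
      rw [hW'd]
      exact Pool.Agent.H44.RC.cc_pre _ _ _
    rw [← Pool.Agent.H44.RC.cc_onto hf ho hW'o hW'p hy'] at hcW
    obtain ⟨x, hx, hxc⟩ := hcW
    have hsub : Pool.Agent.H44.RC.CC (rat a b) (j + 1) W' (y : OnePoint ℂ) ⊆ Pool.Agent.H44.RC.CC (rat a b) k D (y : OnePoint ℂ) := by
      refine Pool.Agent.H44.RC.cc_max (Pool.Agent.H44.RC.cc_pre _ _ _) (Pool.Agent.H44.RC.cc_mem hy') fun w hw => ?_
      have h1 := Pool.Agent.H44.RC.cc_sub hw
      rw [hW'd] at h1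
      have h2 := Pool.Agent.H44.RC.cc_sub h1
      rwa [hadd] at h2
    obtain ⟨z, hz, rfl⟩ := hW (hsub hx)
    have hzb : z ∈ closedBall y s := ball_subset_closedBall hz
    have hpz := (mem_pre.1 (hpre z hzb).1).1
    have hjk : j + 1 < k := by omega
    have h1 : (rat a b)^[j + 1] (z : OnePoint ℂ) = ((gg a b)^[j + 1] z : ℂ) := rat_it hpz (j + 1) hjk.le
    rw [h1] at hxc
    rw [← hxc, crit_iff h (hpz (j + 1) hjk)] at hcr
    rw [Finset.mem_coe, Finset.mem_filter, Finset.mem_range]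
    refine ⟨hjk, z, hzb, ?_⟩
    unfold dg
    rw [hcr, zero_div]
  -- (3) counting
  have h1 := Set.ncard_le_ncard_of_injOn (fun j : ℕ => j + 1) hkey (fun i _ j _ hij => Nat.succ_injective hij)
    (Finset.finite_toSet _)
  rwa [Set.ncard_coe_finset] at h1

end Pool.Agent.H43.BE
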