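import Mathlib

/-!
# THEOREM BEAU (no gaps): comparison on a ring

PROOF. Let `z - y = exp ζ0`, `z' - y = exp ζ1` (`ζ = Complex.log`, `|im| ≤ π`), `ω = ζ1 - ζ0`: `‖ω‖ ≤ |re ω| + |im ω| ≤ log (s2 / s1) + 2 π`. `F t = h (y + exp (ζ0 + t ω))`, `t ∈ [0, 1]`: the modulus of `exp (ζ0 + t ω)` is between `‖z - y‖` and `‖z' - y‖`, so in `[s1, s2]`. `F` is differentiable at these `t` (`S` open), `F' t = h' (z_t) (z_t - y) ω`, so `‖F' t‖ ≤ C ‖ω‖ ‖F t‖ (1 + |log ‖F t‖|)`, `F t ≠ 0`.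
`φ t = log ‖F t‖ = log (‖F t‖ ^ 2) / 2` (`HasDerivAt.norm_sq`), `|φ' t| ≤ ‖F' t‖ / ‖F t‖ ≤ K (1 + |φ t|)`, `K = C ‖ω‖`. Gronwall (`norm_le_gronwallBound_of_norm_deriv_right_le`, `gronwallBound_K_ne_0` or the case `K = 0`; WLOG take `K = C (log (s2 / s1) + 7) > 0`, `2 π < 7`): `|φ 1| ≤ |φ 0| exp K + exp K - 1`.
-/

set_option autoImplicit false

open Filter Topology Polynomial Metric Set MeasureTheory

namespace Pool.Agent.H43.BE

theorem rlc {C : ℝ} (hC : 0 < C) {y : ℂ} {s1 s2 : ℝ} (hs1 : 0 < s1) {h : ℂ → ℂ} {S : Set ℂ} (hS : IsOpen S)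
    (hsub : ∀ z, s1 ≤ ‖z - y‖ → ‖z - y‖ ≤ s2 → z ∈ S) (hd : DifferentiableOn ℂ h S) (h0 : ∀ z ∈ S, h z ≠ 0)
    (hb : ∀ z, s1 ≤ ‖z - y‖ → ‖z - y‖ ≤ s2 → ‖deriv h z‖ * ‖z - y‖ ≤ C * (‖h z‖ * (1 + |Real.log ‖h z‖|)))
    {z z' : ℂ} (hz1 : s1 ≤ ‖z - y‖) (hz2 : ‖z - y‖ ≤ s2) (hz1' : s1 ≤ ‖z' - y‖) (hz2' : ‖z' - y‖ ≤ s2) :
    1 + |Real.log ‖h z'‖| ≤ Real.exp (C * (Real.log (s2 / s1) + 7)) * (1 + |Real.log ‖h z‖|) := by
  have hr0 : 0 < ‖z - y‖ := hs1.trans_le hz1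
  have hr1 : 0 < ‖z' - y‖ := hs1.trans_le hz1'
  have hs2 : 0 < s2 := hr0.trans_le hz2
  have hne0 : z - y ≠ 0 := norm_pos_iff.1 hr0
  have hne1 : z' - y ≠ 0 := norm_pos_iff.1 hr1
  set ζ0 : ℂ := Complex.log (z - y) with hζ0
  set ζ1 : ℂ := Complex.log (z' - y) with hζ1
  set ω : ℂ := ζ1 - ζ0 with hω
  have hl1 : Real.log s1 ≤ Real.log ‖z - y‖ := Real.log_le_log hs1 hz1
  have hl2 : Real.log ‖z - y‖ ≤ Real.log s2 := Real.log_le_log hr0 hz2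
  have hl1' : Real.log s1 ≤ Real.log ‖z' - y‖ := Real.log_le_log hs1 hz1'
  have hl2' : Real.log ‖z' - y‖ ≤ Real.log s2 := Real.log_le_log hr1 hz2'
  have hlog : Real.log (s2 / s1) = Real.log s2 - Real.log s1 := Real.log_div hs2.ne' hs1.ne'
  have hre0 : ζ0.re = Real.log ‖z - y‖ := Complex.log_re _
  have hre1 : ζ1.re = Real.log ‖z' - y‖ := Complex.log_re _
  have hωn : ‖ω‖ ≤ Real.log (s2 / s1) + 7 := by
    refine (Complex.norm_le_abs_re_add_abs_im ω).trans ?_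
    have h1 : |ω.re| ≤ Real.log (s2 / s1) := by
      rw [hω, Complex.sub_re, hre0, hre1, hlog, abs_le]
      constructor <;> linarith
    have h2 : |ω.im| ≤ 7 := by
      have h3 : |ζ1.im| ≤ Real.pi := by rw [hζ1, Complex.log_im]; exact Complex.abs_arg_le_pi _
      have h4 : |ζ0.im| ≤ Real.pi := by rw [hζ0, Complex.log_im]; exact Complex.abs_arg_le_pi _
      rw [hω, Complex.sub_im]
      have h5 := abs_sub ζ1.im ζ0.im
      have h6 := Real.pi_lt_d2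
      linarith
    linarith
  set K : ℝ := C * (Real.log (s2 / s1) + 7) with hK
  have hK0 : 0 < K := by
    have : 0 ≤ Real.log (s2 / s1) := by rw [hlog]; linarith
    positivity
  set w : ℝ → ℂ := fun t => y + Complex.exp (ζ0 + t * ω) with hw
  have hwn : ∀ t ∈ Icc (0 : ℝ) 1, s1 ≤ ‖w t - y‖ ∧ ‖w t - y‖ ≤ s2 := by
    intro t ht
    have h1 : ‖w t - y‖ = Real.exp ((1 - t) * Real.log ‖z - y‖ + t * Real.log ‖z' - y‖) := by
      simp only [hw, add_sub_cancel_left, Complex.norm_exp]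
      congr 1
      simp only [Complex.add_re, Complex.mul_re, Complex.ofReal_re, Complex.ofReal_im, zero_mul, sub_zero, hω, Complex.sub_re,
        hre0, hre1]
      ring
    rw [h1]
    have ht0 := ht.1
    have ht1 := ht.2
    constructor
    · rw [← Real.exp_log hs1]
      rw [Real.exp_log hs1, ← Real.exp_log hs1]
      refine Real.exp_le_exp.2 ?_
      nlinarith
    · conv_rhs => rw [← Real.exp_log hs2]
      refine Real.exp_le_exp.2 ?_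
      nlinarith
  have hwS : ∀ t ∈ Icc (0 : ℝ) 1, w t ∈ S := fun t ht => hsub _ (hwn t ht).1 (hwn t ht).2
  set F : ℝ → ℂ := fun t => h (w t) with hF
  have hFd : ∀ t ∈ Icc (0 : ℝ) 1, HasDerivAt F (deriv h (w t) * ((w t - y) * ω)) t := by
    intro t ht
    have h1 : HasDerivAt (fun t : ℝ => ζ0 + (t : ℂ) * ω) (1 * ω) t :=
      ((Complex.ofRealCLM.hasDerivAt (x := t)).mul_const ω).const_add ζ0
    have h2 : HasDerivAt w (Complex.exp (ζ0 + t * ω) * (1 * ω)) t := h1.cexp.const_add y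
    have h3 : HasDerivAt h (deriv h (w t)) (w t) := (hd.differentiableAt (hS.mem_nhds (hwS t ht))).hasDerivAt
    have h4 := h3.comp t h2
    have h5 : w t - y = Complex.exp (ζ0 + t * ω) := by simp [hw]
    rw [h5]
    rw [one_mul] at h4
    exact h4
  set φ : ℝ → ℝ := fun t => Real.log (‖F t‖ ^ 2) / 2 with hφ
  have hφe : ∀ t, φ t = Real.log ‖F t‖ := fun t => by
    simp only [hφ, Real.log_pow]; push_cast; ring
  have hF0 : ∀ t ∈ Icc (0 : ℝ) 1, F t ≠ 0 := fun t ht => h0 _ (hwS t ht)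
  have hφd : ∀ t ∈ Icc (0 : ℝ) 1, HasDerivAt φ (2 * inner ℝ (F t) (deriv h (w t) * ((w t - y) * ω)) / ‖F t‖ ^ 2 / 2) t := by
    intro t ht
    have h1 := (hFd t ht).norm_sq
    have h2 : ‖F t‖ ^ 2 ≠ 0 := pow_ne_zero _ (norm_ne_zero_iff.2 (hF0 t ht))
    exact (h1.log h2).div_const 2
  have hφb : ∀ t ∈ Icc (0 : ℝ) 1, ‖2 * inner ℝ (F t) (deriv h (w t) * ((w t - y) * ω)) / ‖F t‖ ^ 2 / 2‖ ≤ K * ‖φ t‖ + K := by
    intro t ht
    have hp : 0 < ‖F t‖ := norm_pos_iff.2 (hF0 t ht)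
    have h1 : |inner ℝ (F t) (deriv h (w t) * ((w t - y) * ω))| ≤ ‖F t‖ * ‖deriv h (w t) * ((w t - y) * ω)‖ :=
      abs_real_inner_le_norm _ _
    have h2 : ‖deriv h (w t) * ((w t - y) * ω)‖ ≤ K * (‖F t‖ * (1 + |Real.log ‖F t‖|)) := by
      rw [norm_mul, norm_mul]
      have h3 := hb (w t) (hwn t ht).1 (hwn t ht).2
      have h4 : 0 ≤ ‖h (w t)‖ * (1 + |Real.log ‖h (w t)‖|) := by positivity
      calc ‖deriv h (w t)‖ * (‖w t - y‖ * ‖ω‖) = ‖deriv h (w t)‖ * ‖w t - y‖ * ‖ω‖ := by ring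
        _ ≤ C * (‖h (w t)‖ * (1 + |Real.log ‖h (w t)‖|)) * ‖ω‖ := mul_le_mul_of_nonneg_right h3 (norm_nonneg _)
        _ ≤ C * (‖h (w t)‖ * (1 + |Real.log ‖h (w t)‖|)) * (Real.log (s2 / s1) + 7) :=
            mul_le_mul_of_nonneg_left hωn (by positivity)
        _ = K * (‖F t‖ * (1 + |Real.log ‖F t‖|)) := by rw [hK]; ring
    rw [hφe, Real.norm_eq_abs, Real.norm_eq_abs, abs_div, abs_div, abs_mul]
    rw [abs_of_pos (by norm_num : (0 : ℝ) < 2), abs_of_pos (by positivity : 0 < ‖F t‖ ^ 2)]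
    have h5 : 2 * |inner ℝ (F t) (deriv h (w t) * ((w t - y) * ω))| / ‖F t‖ ^ 2 / 2
        = |inner ℝ (F t) (deriv h (w t) * ((w t - y) * ω))| / ‖F t‖ ^ 2 := by ring
    rw [h5, div_le_iff₀ (by positivity)]
    calc |inner ℝ (F t) (deriv h (w t) * ((w t - y) * ω))| ≤ ‖F t‖ * ‖deriv h (w t) * ((w t - y) * ω)‖ := h1
      _ ≤ ‖F t‖ * (K * (‖F t‖ * (1 + |Real.log ‖F t‖|))) := mul_le_mul_of_nonneg_left h2 hp.le
      _ = (K * |Real.log ‖F t‖| + K) * ‖F t‖ ^ 2 := by ring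
  have hg := norm_le_gronwallBound_of_norm_deriv_right_le (f := φ)
    (f' := fun t => 2 * inner ℝ (F t) (deriv h (w t) * ((w t - y) * ω)) / ‖F t‖ ^ 2 / 2) (δ := |φ 0|) (K := K) (ε := K)
    (a := 0) (b := 1) (fun t ht => (hφd t ht).continuousAt.continuousWithinAt)
    (fun t ht => (hφd t ⟨ht.1, ht.2.le⟩).hasDerivWithinAt) le_rfl (fun t ht => hφb t ⟨ht.1, ht.2.le⟩) 1
    ⟨zero_le_one, le_rfl⟩
  rw [gronwallBound_of_K_ne_0 hK0.ne'] at hg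
  simp only [sub_zero, mul_one, div_self hK0.ne', one_mul, Real.norm_eq_abs, hφe] at hg
  have hw0 : w 0 = z := by
    simp [hw, hζ0, Complex.exp_log hne0]
  have hw1 : w 1 = z' := by
    simp [hw, hω, hζ1, Complex.exp_log hne1]
  have hF0' : F 0 = h z := by simp only [hF, hw0]
  have hF1' : F 1 = h z' := by simp only [hF, hw1]
  rw [hF0', hF1'] at hg
  nlinarith [hg]

end Pool.Agent.H43.BE
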