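import Pool.Agent.H18.UP.BAS
import Pool.Agent.H83.UP.LLG

/-!
# THEOREM BEAU (no gaps): Landau's theorem with the logarithm on a ring

PROOF. As `lrg` (H18/UP/LRG), with `llg1` (H83/UP/LLG: `‖g' 0‖ ≤ 5760 ‖g 0‖ (1 + |log ‖g 0‖|)` for `g` holomorphic on `ball 0 1` without the values `0, 1`). `z - y = exp ζ0` (`ζ0 = log (z - y)`), `H = log q > 0`, `g w = h (y + exp (ζ0 + H w))`, `w ∈ ball 0 1`: `‖exp (ζ0 + H w)‖ = ‖z - y‖ exp (H re w)` is in `(‖z - y‖ / q, ‖z - y‖ q) ⊆ (r1, r2)`. `g 0 = h z`, `g' 0 = h' z * (z - y) * H`. `C = 5760`.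
-/

set_option autoImplicit false

open Filter Topology Polynomial Metric Set MeasureTheory

namespace Pool.Agent.H43.BE

theorem rlg : ∃ C : ℝ, 0 < C ∧ ∀ (y : ℂ) (r1 r2 q : ℝ) (h : ℂ → ℂ), 0 < r1 → 1 < q →
    DifferentiableOn ℂ h {z | r1 < ‖z - y‖ ∧ ‖z - y‖ < r2} → (∀ z, r1 < ‖z - y‖ → ‖z - y‖ < r2 → h z ≠ 0 ∧ h z ≠ 1) →
    ∀ z, r1 * q ≤ ‖z - y‖ → ‖z - y‖ * q ≤ r2 →
      ‖deriv h z‖ * ‖z - y‖ * Real.log q ≤ C * (‖h z‖ * (1 + |Real.log ‖h z‖|)) := by
  refine ⟨5760, by norm_num, fun y r1 r2 q h h1 hq hh h01 z hz1 hz2 => ?_⟩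
  have hq0 : 0 < q := zero_lt_one.trans hq
  have hn : 0 < ‖z - y‖ := lt_of_lt_of_le (by positivity) hz1
  have hne : z - y ≠ 0 := norm_pos_iff.1 hn
  have hr2 : 0 < r2 := lt_of_lt_of_le (by positivity) hz2
  obtain ⟨H, hH⟩ : ∃ H : ℝ, H = Real.log q := ⟨_, rfl⟩
  have hHp : 0 < H := by rw [hH]; exact Real.log_pos hq
  have hl1 : Real.log r1 + H ≤ Real.log ‖z - y‖ := by
    rw [hH, ← Real.log_mul h1.ne' hq0.ne']
    exact Real.log_le_log (by positivity) hz1
  have hl2 : Real.log ‖z - y‖ + H ≤ Real.log r2 := by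
    rw [hH, ← Real.log_mul hn.ne' hq0.ne']
    exact Real.log_le_log (by positivity) hz2
  set E : ℂ → ℂ := fun w => y + Complex.exp (Complex.log (z - y) + (H : ℂ) * w) with hE
  have hnorm : ∀ w : ℂ, ‖E w - y‖ = Real.exp (Real.log ‖z - y‖ + H * w.re) := by
    intro w
    rw [hE]
    simp only [add_sub_cancel_left]
    rw [Complex.norm_exp, Complex.add_re, Complex.log_re, Complex.re_ofReal_mul]
  have hin : ∀ w ∈ ball (0 : ℂ) 1, r1 < ‖E w - y‖ ∧ ‖E w - y‖ < r2 := by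
    intro w hw
    rw [hnorm]
    have hwn : |w.re| < 1 := lt_of_le_of_lt (Complex.abs_re_le_norm w) (by simpa using hw)
    obtain ⟨ha, hb⟩ := abs_lt.1 hwn
    constructor
    · rw [← Real.log_lt_iff_lt_exp h1]
      nlinarith
    · rw [← Real.lt_log_iff_exp_lt hr2]
      nlinarith
  have hEd : ∀ w : ℂ, HasDerivAt E (Complex.exp (Complex.log (z - y) + (H : ℂ) * w) * H) w := by
    intro w
    have ha : HasDerivAt (fun w : ℂ => Complex.log (z - y) + (H : ℂ) * w) (H : ℂ) w := by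
      simpa using ((hasDerivAt_id w).const_mul (H : ℂ)).const_add (Complex.log (z - y))
    exact (ha.cexp).const_add y
  have hE0 : E 0 = z := by
    rw [hE]
    simp only [mul_zero, add_zero]
    rw [Complex.exp_log hne]
    ring
  have hopen : IsOpen {z | r1 < ‖z - y‖ ∧ ‖z - y‖ < r2} := by
    apply IsOpen.and
    · exact isOpen_lt continuous_const (by fun_prop)
    · exact isOpen_lt (by fun_prop) continuous_const
  have key := Pool.Agent.H83.UP.llg1 (g := fun w => h (E w)) (fun w hw =>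
    ((hh.differentiableAt (hopen.mem_nhds (hin w hw))).comp w (hEd w).differentiableAt).differentiableWithinAt)
    (fun w hw => h01 (E w) (hin w hw).1 (hin w hw).2)
  have hd : deriv (fun w => h (E w)) 0 = deriv h z * ((z - y) * H) := by
    have ha := hin 0 (mem_ball_self one_pos)
    rw [hE0] at ha
    have hb : HasDerivAt h (deriv h z) (E 0) := by
      rw [hE0]
      exact (hh.differentiableAt (hopen.mem_nhds ha)).hasDerivAt
    have hc := (hb.comp 0 (hEd 0)).deriv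
    rw [mul_zero, add_zero, Complex.exp_log hne] at hc
    exact hc
  rw [hd] at key
  simp only [hE0] at key
  rw [norm_mul, norm_mul, Complex.norm_real, Real.norm_of_nonneg hHp.le] at key
  rw [← hH]
  calc ‖deriv h z‖ * ‖z - y‖ * H = ‖deriv h z‖ * (‖z - y‖ * H) := by ring
    _ ≤ _ := key

end Pool.Agent.H43.BE
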