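import Pool.Agent.H18.UP.THK
import Pool.Agent.H43.BE.RLG
import Pool.Agent.H43.BE.RLC

/-!
# THEOREM BEAU (no gaps): a gap of the Julia set gives a circle with a large image

PROOF (compare `thk`, H18/UP/THK: the same constants and the same steps; the private lemmas `tJ`, `tL` there may be copied). `u1, u2, u3 ∈ J` different (`jin`), `4 κ ≤` their distances, `κ ≤ 1`; `ε0` as in `thk`: for `w0 ∈ J`, `‖w - w0‖ ≤ ε0`: `b w ≠ 0`, `‖gg w - gg w0‖ < κ / 2`; `ε0 < δ0`, `ε0 < 1`.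
FIX `y ∈ J`, `N`. `r1` is such that `closedBall y r1 ⊆ pre^j univ` and `‖gg^[j] z - gg^[j] y‖ ≤ ε0` for `z ∈ closedBall y r1`, `j ≤ N` (`pre_open`, `g_diff` (continuity), finitely many `j`). Let `ρ ≤ r1` with the gap. `s = ρ / 6`. Let `E j`: `∀ z ∈ closedBall y s, z ∈ pre^j univ ∧ ‖gg^[j] z - gg^[j] y‖ ≤ ε0`. `E j` for `j ≤ N`. By `US0.ex` (radius `s`; `rat^[n] z = gg^[n] z` in the plane, in `ball (gg^[n] y) δ0`, as in `thk`) some `E n` fails. `k =` the smallest such `n`: `N < k`, `E (k - 1)`. As in `thk`: `closedBall y s ⊆ pre^k univ`, `F = gg^[k]`, `‖F z - F y‖ < κ / 2` on `closedBall y s`, `‖F z‖ ≤ R0 + 1`. `E k` fails: `‖F z - F y‖ > ε0` for some `z ∈ closedBall y s`, so (maximum principle) for some `z1` with `‖z1 - y‖ = s`.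
`u = F y ∈ J`. Two of the `u_i` (rename: `v2, v3`, `4 κ ≤ ‖v2 - v3‖`) have `‖u - v_i‖ ≥ 2 κ` (otherwise two of them have a distance `< 4 κ`); then `‖F z - v_i‖ ≥ κ` on `closedBall y s`. `rat^[k] = rat P Q` (`rat_iter`, as in `tL`). On the ring `A = {ρ / 64 < ‖z - y‖ < ρ / 4}` (no point of `J`): `P z - w Q z ≠ 0` for `w ∈ J` (as in `tL`).
`h z = (P z - u Q z) (v3 - v2) / ((P z - v2 Q z) (v3 - u))`: holomorphic on `A`, `≠ 0`, `≠ 1` (`h = 1` iff `(P z - v3 Q z)(u - v2) = 0` or so). `rlg` with `q = 4 / 3`: for `ρ / 48 ≤ ‖z - y‖ ≤ ρ / 6`: `‖h' z‖ ‖z - y‖ ≤ C1 ‖h z‖ (1 + |log ‖h z‖|)`, `C1 = C / log (4 / 3)`. `rlc` with `s1 = ρ / 48`, `s2 = ρ / 6`, `s2 / s1 = 8`: `1 + |log ‖h z'‖| ≤ C2 (1 + |log ‖h z‖|)` for all `z, z'` with `ρ / 48 ≤ ‖.‖ ≤ ρ / 6`, `C2 = exp (C1 (log 8 + 7))`.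
On the closed ring `{ρ / 48 ≤ ‖z - y‖ ≤ ρ / 6} ⊆ closedBall y s`: `h z = (F z - u)(v3 - v2) / ((F z - v2)(v3 - u))`. With `κ ≤ ‖F z - v2‖ ≤ 2 R0 + 1`, `2 κ ≤ ‖v3 - u‖ ≤ 2 R0`, `4 κ ≤ ‖v3 - v2‖ ≤ 2 R0`: `c3 ‖F z - u‖ ≤ ‖h z‖ ≤ C3 ‖F z - u‖`. At `z1`: `c3 ε0 ≤ ‖h z1‖ ≤ C3 κ`: `|log ‖h z1‖| ≤ C4`. So `|log ‖h z‖| ≤ C5` on the closed ring: `‖F z - u‖ ≥ ‖h z‖ / C3 ≥ exp (- C5) / C3 = η`.
On `‖z - y‖ = s`: `‖h' z‖ s ≤ C1 exp C5 (1 + C5)`, `h' = F' (u - v2)(v3 - v2) / ((F - v2) ^ 2 (v3 - u))` (up to the sign; `‖u - v2‖ ≥ 2 κ`): `‖F' z‖ s ≤ C6`, `F' z = tD a b k z` (`g_diff`); `tD a b k` is holomorphic near `closedBall y s` (it is the derivative of `gg^[k]` on the open set `pre^k univ`), so by the maximum principle `‖tD a b k z‖ ρ ≤ 6 C6 = B` on `closedBall y s`. All constants do not depend on `y, N, ρ`.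
-/

set_option autoImplicit false

open Filter Topology Polynomial Metric Set MeasureTheory

namespace Pool.Agent.H43.BE

open Pool.Agent.H44.Fatou (rat rat_continuous)
open Pool.Agent.H32.BT (IsCrit)
open Pool.Agent.H61.TT Pool.Agent.H57.CP Pool.Agent.H3.NC
open Pool.Agent.H18.UP

variable {d : ℕ} {a b : Polynomial ℂ} {J : Set ℂ} {δ0 : ℝ}

private theorem nJ {D : ℕ} {R0 : ℝ} (h : US0 d D a b J δ0 R0) {m : ℕ} {z u : ℂ} (hu : u ∈ J)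
    (hz : (rat a b)^[m] (z : OnePoint ℂ) = (u : OnePoint ℂ)) : z ∈ J := by
  induction m generalizing z with
  | zero =>
    have h1 : z = u := OnePoint.coe_injective hz
    rw [h1]
    exact hu
  | succ m ih =>
    rw [Function.iterate_succ_apply] at hz
    obtain ⟨z', hz', -⟩ := h.ns.bd m (rat a b z) ⟨u, hu, u, mem_ball_self h.ns.hδ0, hz⟩
    have hb : b.eval z ≠ 0 := by
      intro h0
      rw [Pool.Agent.H44.Fatou.rat_coe, h0] at hz'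
      unfold Pool.Agent.H44.Fatou.pt at hz'
      rw [if_pos rfl] at hz'
      exact OnePoint.infty_ne_coe _ hz'
    have hg : gg a b z = z' := by
      rw [Pool.Agent.H44.Fatou.rat_coe_of_ne hb] at hz'
      exact OnePoint.coe_injective hz'
    rw [hz'] at hz
    exact h.back z hb (hg ▸ ih hz)

private theorem nLog {x s t : ℝ} (hs : 0 < s) (h1 : s ≤ x) (h2 : x ≤ t) :
    |Real.log x| ≤ |Real.log s| + |Real.log t| := by
  have hx : 0 < x := lt_of_lt_of_le hs h1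
  have e1 := Real.log_le_log hs h1
  have e2 := Real.log_le_log hx h2
  rw [abs_le]
  constructor
  · have e3 := neg_abs_le (Real.log s)
    have e4 := abs_nonneg (Real.log t)
    linarith
  · have e3 := le_abs_self (Real.log t)
    have e4 := abs_nonneg (Real.log s)
    linarith

private theorem nT {D : ℕ} {R0 : ℝ} (h : US0 d D a b J δ0 R0) {κ ε0 : ℝ} (hκ : 0 < κ) (hε0 : 0 < ε0)
    (hbd : ∀ z ∈ J, ‖z‖ ≤ R0) (hR : 0 < R0) :
    ∃ η B : ℝ, 0 < η ∧ 0 < B ∧ ∀ (m : ℕ) (y u v2 v3 z1 : ℂ) (ρ : ℝ), 0 < ρ →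
      (∀ z, ρ / 64 < ‖z - y‖ → ‖z - y‖ < ρ / 4 → z ∉ J) →
      u ∈ J → v2 ∈ J → v3 ∈ J → 4 * κ ≤ ‖v3 - v2‖ → 2 * κ ≤ ‖u - v2‖ → 2 * κ ≤ ‖v3 - u‖ →
      (∀ z ∈ closedBall y (ρ / 6), z ∈ (pre a b)^[m] univ ∧ ‖(gg a b)^[m] z - u‖ ≤ κ / 2 ∧ ‖(gg a b)^[m] z‖ ≤ R0 + 1) →
      ‖z1 - y‖ = ρ / 6 → ε0 ≤ ‖(gg a b)^[m] z1 - u‖ →
      (∀ z, ‖z - y‖ = ρ / 48 → η ≤ ‖(gg a b)^[m] z - u‖) ∧ ∀ z, ‖z - y‖ = ρ / 6 → ‖tD a b m z‖ * ρ ≤ B := by
  obtain ⟨C, hC0, hC⟩ := rlg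
  have hl : 0 < Real.log (4 / 3) := Real.log_pos (by norm_num)
  obtain ⟨C1, hC1⟩ : ∃ C1 : ℝ, C1 = C / Real.log (4 / 3) := ⟨_, rfl⟩
  have hC1p : 0 < C1 := by rw [hC1]; positivity
  obtain ⟨C2, hC2⟩ : ∃ C2 : ℝ, C2 = Real.exp (C1 * (Real.log 8 + 7)) := ⟨_, rfl⟩
  have hC2p : 0 < C2 := by rw [hC2]; positivity
  obtain ⟨lo, hlo⟩ : ∃ lo : ℝ, lo = ε0 * (4 * κ) / ((2 * R0 + 1) * (2 * R0)) := ⟨_, rfl⟩
  have hlop : 0 < lo := by rw [hlo]; positivity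
  obtain ⟨hi, hhi⟩ : ∃ hi : ℝ, hi = κ / 2 * (2 * R0) / (κ * (2 * κ)) := ⟨_, rfl⟩
  obtain ⟨C5, hC5⟩ : ∃ C5 : ℝ, C5 = C2 * (1 + (|Real.log lo| + |Real.log hi|)) := ⟨_, rfl⟩
  have hC5p : 0 < C5 := by rw [hC5]; positivity
  refine ⟨Real.exp (-C5) * (κ * (2 * κ)) / (2 * R0),
    6 * (C1 * (Real.exp C5 * (1 + C5)) * ((2 * R0 + 1) ^ 2 * (2 * R0) / (4 * κ * (2 * κ)))), by positivity, by positivity, ?_⟩
  intro m y u v2 v3 z1 ρ hρ hgap hu hv2 hv3 h32 hu2 h3u hF hz1 hFz1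
  obtain ⟨P, Q, hPQ, -, hit⟩ := Pool.Agent.H79.PJ.rat_iter h.ns.rt.cop
    (by unfold Pool.Agent.H44.Fatou.dg; rw [h.ns.rt.deg]; have := h.ns.rt.hd; omega) m
  have hne : ∀ u ∈ J, ∀ z, ρ / 64 < ‖z - y‖ → ‖z - y‖ < ρ / 4 → P.eval z - u * Q.eval z ≠ 0 := by
    intro u hu z hz1 hz2 h0
    by_cases hQ : Q.eval z = 0
    · rw [hQ, mul_zero, sub_zero] at h0
      rcases Pool.Agent.H44.Fatou.coprime_eval hPQ z with h4 | h4
      · exact h4 h0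
      · exact h4 hQ
    · have h4 := hit (z : OnePoint ℂ)
      rw [Pool.Agent.H44.Fatou.rat_coe_of_ne hQ] at h4
      have h5 : P.eval z / Q.eval z = u := by
        rw [div_eq_iff hQ]
        exact sub_eq_zero.1 h0
      rw [h5] at h4
      exact hgap z hz1 hz2 (nJ h hu h4.symm)
  have hd32 : v3 - v2 ≠ 0 := norm_pos_iff.1 (lt_of_lt_of_le (by positivity) h32)
  have hdu2 : u - v2 ≠ 0 := norm_pos_iff.1 (lt_of_lt_of_le (by positivity) hu2)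
  have hd3u : v3 - u ≠ 0 := norm_pos_iff.1 (lt_of_lt_of_le (by positivity) h3u)
  obtain ⟨f, hf⟩ : ∃ f : ℂ → ℂ, f = fun z => ((P.eval z - u * Q.eval z) * (v3 - v2)) / ((P.eval z - v2 * Q.eval z) * (v3 - u)) :=
    ⟨_, rfl⟩
  have hfd : DifferentiableOn ℂ f {z | ρ / 64 < ‖z - y‖ ∧ ‖z - y‖ < ρ / 4} := by
    rw [hf]
    refine DifferentiableOn.div ?_ ?_ ?_
    · exact ((P.differentiable.sub ((differentiable_const _).mul Q.differentiable)).mul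
        (differentiable_const _)).differentiableOn
    · exact ((P.differentiable.sub ((differentiable_const _).mul Q.differentiable)).mul
        (differentiable_const _)).differentiableOn
    · intro z hz
      exact mul_ne_zero (hne v2 hv2 z hz.1 hz.2) hd3u
  have hf01 : ∀ z, ρ / 64 < ‖z - y‖ → ‖z - y‖ < ρ / 4 → f z ≠ 0 ∧ f z ≠ 1 := by
    intro z hz1 hz2
    have e1 := hne u hu z hz1 hz2
    have e2 := hne v2 hv2 z hz1 hz2
    have e3 := hne v3 hv3 z hz1 hz2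
    rw [hf]
    refine ⟨div_ne_zero (mul_ne_zero e1 hd32) (mul_ne_zero e2 hd3u), fun h0 => ?_⟩
    have h0' : ((P.eval z - u * Q.eval z) * (v3 - v2)) / ((P.eval z - v2 * Q.eval z) * (v3 - u)) = 1 := h0
    rw [div_eq_one_iff_eq (mul_ne_zero e2 hd3u)] at h0'
    have h5 : (u - v2) * (P.eval z - v3 * Q.eval z) = 0 := by linear_combination h0'
    rcases mul_eq_zero.1 h5 with h6 | h6
    · exact hdu2 h6
    · exact e3 h6
  have hring : ∀ z, ρ / 48 ≤ ‖z - y‖ → ‖z - y‖ ≤ ρ / 6 →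
      ‖deriv f z‖ * ‖z - y‖ ≤ C1 * (‖f z‖ * (1 + |Real.log ‖f z‖|)) := by
    intro z hz1 hz2
    have e1 := hC y (ρ / 64) (ρ / 4) (4 / 3) f (by positivity) (by norm_num) hfd hf01 z (by linarith) (by linarith)
    have e2 : ‖deriv f z‖ * ‖z - y‖ ≤ C * (‖f z‖ * (1 + |Real.log ‖f z‖|)) / Real.log (4 / 3) := by
      rw [le_div_iff₀ hl]
      exact e1
    refine e2.trans (le_of_eq ?_)
    rw [hC1]
    ring
  have hcmp : ∀ z, ρ / 48 ≤ ‖z - y‖ → ‖z - y‖ ≤ ρ / 6 → 1 + |Real.log ‖f z‖| ≤ C2 * (1 + |Real.log ‖f z1‖|) := by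
    intro z hz1' hz2'
    have hop : IsOpen {z : ℂ | ρ / 64 < ‖z - y‖ ∧ ‖z - y‖ < ρ / 4} := by
      have c1 : Continuous fun z : ℂ => ‖z - y‖ := (continuous_id.sub continuous_const).norm
      exact (isOpen_lt continuous_const c1).inter (isOpen_lt c1 continuous_const)
    have e1 := rlc hC1p (y := y) (s1 := ρ / 48) (s2 := ρ / 6) (by positivity) hop
      (fun z hz1 hz2 => ⟨by linarith, by linarith⟩) hfd (fun z hz => (hf01 z hz.1 hz.2).1) hring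
      (z := z1) (z' := z) (by rw [hz1]; linarith) (by rw [hz1]) hz1' hz2'
    have e2 : ρ / 6 / (ρ / 48) = 8 := by
      field_simp
      norm_num
    rw [e2, ← hC2] at e1
    exact e1
  have heq : ∀ w ∈ (pre a b)^[m] univ, Q.eval w ≠ 0 ∧ P.eval w = (gg a b)^[m] w * Q.eval w := by
    intro w hw
    have h4 := hit (w : OnePoint ℂ)
    rw [rat_it (mem_pre.1 hw).1 m le_rfl] at h4
    have hQ : Q.eval w ≠ 0 := by
      intro h0
      rw [Pool.Agent.H44.Fatou.rat_coe, h0] at h4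
      unfold Pool.Agent.H44.Fatou.pt at h4
      rw [if_pos rfl] at h4
      exact OnePoint.infty_ne_coe _ h4
    refine ⟨hQ, ?_⟩
    rw [Pool.Agent.H44.Fatou.rat_coe_of_ne hQ] at h4
    exact (div_eq_iff hQ).1 (OnePoint.coe_injective h4)
  have hM : ∀ w ∈ (pre a b)^[m] univ, f w =
      (((gg a b)^[m] w - u) * (v3 - v2)) / (((gg a b)^[m] w - v2) * (v3 - u)) := by
    intro w hw
    obtain ⟨hQ, hP⟩ := heq w hw
    rw [hf]
    change ((P.eval w - u * Q.eval w) * (v3 - v2)) / ((P.eval w - v2 * Q.eval w) * (v3 - u)) = _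
    rw [hP]
    have e1 : ((gg a b)^[m] w * Q.eval w - u * Q.eval w) * (v3 - v2) = ((gg a b)^[m] w - u) * (v3 - v2) * Q.eval w := by ring
    have e2 : ((gg a b)^[m] w * Q.eval w - v2 * Q.eval w) * (v3 - u) = ((gg a b)^[m] w - v2) * (v3 - u) * Q.eval w := by ring
    rw [e1, e2, mul_div_mul_right _ _ hQ]
  have n32 : ‖v3 - v2‖ ≤ 2 * R0 := (norm_sub_le _ _).trans (by have := hbd _ hv3; have := hbd _ hv2; linarith)
  have n3u : ‖v3 - u‖ ≤ 2 * R0 := (norm_sub_le _ _).trans (by have := hbd _ hv3; have := hbd _ hu; linarith)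
  have nF2 : ∀ z ∈ closedBall y (ρ / 6), ‖(gg a b)^[m] z - v2‖ ≤ 2 * R0 + 1 := fun z hz =>
    (norm_sub_le _ _).trans (by have := (hF z hz).2.2; have := hbd _ hv2; linarith)
  have nF2' : ∀ z ∈ closedBall y (ρ / 6), κ ≤ ‖(gg a b)^[m] z - v2‖ := by
    intro z hz
    have e1 := (hF z hz).2.1
    have e3 := norm_sub_le_norm_sub_add_norm_sub u ((gg a b)^[m] z) v2
    rw [norm_sub_rev] at e1
    linarith
  have hfn : ∀ z ∈ closedBall y (ρ / 6), ‖f z‖ =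
      ‖(gg a b)^[m] z - u‖ * ‖v3 - v2‖ / (‖(gg a b)^[m] z - v2‖ * ‖v3 - u‖) := by
    intro z hz
    rw [hM z (hF z hz).1, norm_div, norm_mul, norm_mul]
  have hz1c : z1 ∈ closedBall y (ρ / 6) := by rw [mem_closedBall, dist_eq_norm, hz1]
  have hlog1 : |Real.log ‖f z1‖| ≤ |Real.log lo| + |Real.log hi| := by
    refine nLog hlop ?_ ?_
    · rw [hfn z1 hz1c, hlo]
      have g2 := nF2' z1 hz1c
      have g1 : 0 < ‖(gg a b)^[m] z1 - v2‖ := lt_of_lt_of_le hκ g2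
      have g3 : 0 < ‖v3 - u‖ := norm_pos_iff.2 hd3u
      have g4 := nF2 z1 hz1c
      gcongr
    · rw [hfn z1 hz1c, hhi]
      have g2 := nF2' z1 hz1c
      have g4 := (hF z1 hz1c).2.1
      gcongr
  have hlogz : ∀ z, ρ / 48 ≤ ‖z - y‖ → ‖z - y‖ ≤ ρ / 6 → |Real.log ‖f z‖| ≤ C5 := by
    intro z hz1 hz2
    have e1 := hcmp z hz1 hz2
    have e2 : C2 * (1 + |Real.log ‖f z1‖|) ≤ C5 := by
      rw [hC5]
      gcongr
    linarith
  refine ⟨fun z hz => ?_, fun z hz => ?_⟩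
  · have hzc : z ∈ closedBall y (ρ / 6) := by rw [mem_closedBall, dist_eq_norm, hz]; linarith
    have e1 := hlogz z (by rw [hz]) (by rw [hz]; linarith)
    have hf0 : 0 < ‖f z‖ := norm_pos_iff.2 (hf01 z (by rw [hz]; linarith) (by rw [hz]; linarith)).1
    have e2 : Real.exp (-C5) ≤ ‖f z‖ := by
      rw [← Real.log_le_log_iff (Real.exp_pos _) hf0, Real.log_exp]
      have := (abs_le.1 e1).1
      linarith
    have e3 : ‖f z‖ ≤ ‖(gg a b)^[m] z - u‖ * (2 * R0) / (κ * (2 * κ)) := by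
      rw [hfn z hzc]
      have g2 := nF2' z hzc
      gcongr
    rw [div_le_iff₀ (by positivity)]
    have e4 := e2.trans e3
    rw [le_div_iff₀ (by positivity)] at e4
    exact e4
  · have hzc : z ∈ closedBall y (ρ / 6) := by rw [mem_closedBall, dist_eq_norm, hz]
    have hzm := (hF z hzc).1
    have e1 := hlogz z (by rw [hz]; linarith) (by rw [hz])
    have hf0 : 0 < ‖f z‖ := norm_pos_iff.2 (hf01 z (by rw [hz]; linarith) (by rw [hz]; linarith)).1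
    have e2 : ‖f z‖ ≤ Real.exp C5 := by
      rw [← Real.log_le_log_iff hf0 (Real.exp_pos _), Real.log_exp]
      exact (abs_le.1 e1).2
    have e3 := hring z (by rw [hz]; linarith) (by rw [hz])
    have e4 : ‖deriv f z‖ * ‖z - y‖ ≤ C1 * (Real.exp C5 * (1 + C5)) := by
      refine e3.trans ?_
      have := abs_nonneg (Real.log ‖f z‖)
      gcongr
    have hFne : (gg a b)^[m] z - v2 ≠ 0 := norm_pos_iff.1 (lt_of_lt_of_le hκ (nF2' z hzc))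
    have hO : (pre a b)^[m] univ ∈ 𝓝 z := (pre_open isOpen_univ).mem_nhds hzm
    have hFd : HasDerivAt (gg a b)^[m] (tD a b m z) z := g_diff hzm
    have hder : deriv f z = tD a b m z * ((v3 - v2) * (u - v2)) / (((gg a b)^[m] z - v2) ^ 2 * (v3 - u)) := by
      have e1 : f =ᶠ[𝓝 z] fun w => (((gg a b)^[m] w - u) * (v3 - v2)) / (((gg a b)^[m] w - v2) * (v3 - u)) := by
        filter_upwards [hO] with w hw
        exact hM w hw
      rw [e1.deriv_eq]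
      have e2 := ((hFd.sub_const u).mul_const (v3 - v2)).div ((hFd.sub_const v2).mul_const (v3 - u))
        (mul_ne_zero hFne hd3u)
      refine Eq.trans (b := _) e2.deriv ?_
      field_simp
      ring
    have q2 : ‖tD a b m z‖ ≤ ‖deriv f z‖ * ((2 * R0 + 1) ^ 2 * (2 * R0) / (4 * κ * (2 * κ))) := by
      have e5 : ‖tD a b m z‖ = ‖deriv f z‖ *
          (‖(gg a b)^[m] z - v2‖ ^ 2 * ‖v3 - u‖ / (‖v3 - v2‖ * ‖u - v2‖)) := by
        rw [hder, norm_div, norm_mul, norm_mul, norm_mul, norm_pow]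
        have g1 := norm_pos_iff.2 hd32
        have g2 := norm_pos_iff.2 hdu2
        have g3 := norm_pos_iff.2 hd3u
        have g4 := norm_pos_iff.2 hFne
        field_simp
      have g5 := nF2 z hzc
      calc ‖tD a b m z‖ = _ := e5
        _ ≤ _ := by gcongr
    rw [hz] at e4
    calc ‖tD a b m z‖ * ρ ≤ (‖deriv f z‖ * ((2 * R0 + 1) ^ 2 * (2 * R0) / (4 * κ * (2 * κ)))) * ρ := by gcongr
      _ = 6 * ((‖deriv f z‖ * (ρ / 6)) * ((2 * R0 + 1) ^ 2 * (2 * R0) / (4 * κ * (2 * κ)))) := by ring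
      _ ≤ _ := by gcongr

private theorem nV {κ : ℝ} {u u1 u2 u3 : ℂ} (hu1 : u1 ∈ J) (hu2 : u2 ∈ J) (hu3 : u3 ∈ J)
    (hk12 : 4 * κ ≤ ‖u2 - u1‖) (hk13 : 4 * κ ≤ ‖u3 - u1‖) (hk23 : 4 * κ ≤ ‖u3 - u2‖) :
    ∃ v2 ∈ J, ∃ v3 ∈ J, 4 * κ ≤ ‖v3 - v2‖ ∧ 2 * κ ≤ ‖u - v2‖ ∧ 2 * κ ≤ ‖v3 - u‖ := by
  have key : ∀ v w : ℂ, 4 * κ ≤ ‖w - v‖ → ‖u - v‖ < 2 * κ → 2 * κ ≤ ‖w - u‖ := by
    intro v w h1 h2
    have e3 := norm_sub_le_norm_sub_add_norm_sub w u v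
    linarith
  rcases lt_or_ge ‖u - u1‖ (2 * κ) with h1 | h1
  · refine ⟨u2, hu2, u3, hu3, hk23, ?_, key _ _ hk13 h1⟩
    rw [norm_sub_rev]
    exact key _ _ hk12 h1
  rcases lt_or_ge ‖u - u2‖ (2 * κ) with h2 | h2
  · exact ⟨u1, hu1, u3, hu3, hk13, h1, key _ _ hk23 h2⟩
  · refine ⟨u1, hu1, u2, hu2, hk12, h1, ?_⟩
    rw [norm_sub_rev]
    exact h2

theorem nga {D : ℕ} {R0 : ℝ} (h : US0 d D a b J δ0 R0) : ∃ η B : ℝ, 0 < η ∧ 0 < B ∧ ∀ y ∈ J, ∀ N : ℕ, ∃ r1 : ℝ, 0 < r1 ∧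
    ∀ ρ : ℝ, 0 < ρ → ρ ≤ r1 → (∀ z ∈ J, ρ / 64 < ‖z - y‖ → ρ / 4 ≤ ‖z - y‖) → ∃ k : ℕ, N < k ∧
      (∀ z ∈ closedBall y (ρ / 6), z ∈ (pre a b)^[k] univ ∧ ‖(gg a b)^[k] z‖ ≤ R0 + 1 ∧ ‖tD a b k z‖ * ρ ≤ B) ∧
      ∀ z, ‖z - y‖ = ρ / 48 → η ≤ ‖(gg a b)^[k] z - (gg a b)^[k] y‖ := by
  rcases J.eq_empty_or_nonempty with rfl | hne
  · exact ⟨1, 1, one_pos, one_pos, fun y hy => absurd hy (Set.notMem_empty y)⟩
  have hinf := jin h.ns h.back hne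
  obtain ⟨t, htJ, htc⟩ := hinf.exists_subset_card_eq 3
  obtain ⟨u1, u2, u3, h12, h13, h23, ht⟩ := Finset.card_eq_three.1 htc
  have hu1 : u1 ∈ J := htJ (by simp [ht])
  have hu2 : u2 ∈ J := htJ (by simp [ht])
  have hu3 : u3 ∈ J := htJ (by simp [ht])
  have hbd : ∀ z ∈ J, ‖z‖ ≤ R0 := by
    intro z hz
    obtain ⟨z', hz', hn⟩ := h.ns.bd 0 (z : OnePoint ℂ) ⟨z, hz, z, mem_ball_self h.ns.hδ0, rfl⟩
    rw [OnePoint.coe_injective hz']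
    exact hn
  obtain ⟨κ, hκ, hκ1, hk12, hk13, hk23⟩ : ∃ κ : ℝ, 0 < κ ∧ κ ≤ 1 ∧ 4 * κ ≤ ‖u2 - u1‖ ∧ 4 * κ ≤ ‖u3 - u1‖ ∧
      4 * κ ≤ ‖u3 - u2‖ := by
    have g1 := norm_pos_iff.2 (sub_ne_zero.2 h12.symm)
    have g2 := norm_pos_iff.2 (sub_ne_zero.2 h13.symm)
    have g3 := norm_pos_iff.2 (sub_ne_zero.2 h23.symm)
    refine ⟨min 1 (min ‖u2 - u1‖ (min ‖u3 - u1‖ ‖u3 - u2‖)) / 4, by positivity, ?_, ?_, ?_, ?_⟩
    · have := min_le_left 1 (min ‖u2 - u1‖ (min ‖u3 - u1‖ ‖u3 - u2‖))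
      linarith
    · have e1 := min_le_right 1 (min ‖u2 - u1‖ (min ‖u3 - u1‖ ‖u3 - u2‖))
      have e2 := min_le_left ‖u2 - u1‖ (min ‖u3 - u1‖ ‖u3 - u2‖)
      linarith
    · have e1 := min_le_right 1 (min ‖u2 - u1‖ (min ‖u3 - u1‖ ‖u3 - u2‖))
      have e2 := min_le_right ‖u2 - u1‖ (min ‖u3 - u1‖ ‖u3 - u2‖)
      have e3 := min_le_left ‖u3 - u1‖ ‖u3 - u2‖
      linarith
    · have e1 := min_le_right 1 (min ‖u2 - u1‖ (min ‖u3 - u1‖ ‖u3 - u2‖))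
      have e2 := min_le_right ‖u2 - u1‖ (min ‖u3 - u1‖ ‖u3 - u2‖)
      have e3 := min_le_right ‖u3 - u1‖ ‖u3 - u2‖
      linarith
  have hR0 : 0 < R0 := by
    have e1 := norm_sub_le u2 u1
    have e2 := hbd _ hu1
    have e3 := hbd _ hu2
    linarith
  have hcomp : IsCompact J := Metric.isCompact_of_isClosed_isBounded h.ns.Jc
    (isBounded_iff_forall_norm_le.2 ⟨R0, hbd⟩)
  have hgc : ∀ z ∈ J, ContinuousAt (gg a b) z := fun z hz =>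
    a.continuous.continuousAt.div b.continuous.continuousAt (h.ns.Jn z hz)
  obtain ⟨ε1, hε1, hcont⟩ : ∃ ε1 : ℝ, 0 < ε1 ∧ ∀ w0 ∈ J, ∀ w, dist w0 w < ε1 → dist (gg a b w0) (gg a b w) < κ / 2 := by
    have h1 := hcomp.uniformContinuousAt_of_continuousAt (gg a b) hgc (Metric.dist_mem_uniformity (half_pos hκ))
    obtain ⟨ε, hε, h2⟩ := Metric.mem_uniformity_dist.1 h1
    exact ⟨ε, hε, fun w0 hw0 w hw => h2 hw hw0⟩
  obtain ⟨ε2, hε2, hb2⟩ : ∃ ε2 : ℝ, 0 < ε2 ∧ ∀ w0 ∈ J, ∀ w, dist w w0 < ε2 → b.eval w ≠ 0 := by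
    obtain ⟨ε, hε, h1⟩ := hcomp.exists_thickening_subset_open (t := {z : ℂ | b.eval z ≠ 0})
      (isOpen_ne_fun b.continuous continuous_const) (fun z hz => h.ns.Jn z hz)
    exact ⟨ε, hε, fun w0 hw0 w hw => h1 (Metric.mem_thickening_iff.2 ⟨w0, hw0, hw⟩)⟩
  have hδ := h.ns.hδ0
  obtain ⟨ε0, hε0, he1, he2, he3⟩ : ∃ ε0 : ℝ, 0 < ε0 ∧ ε0 < ε1 ∧ ε0 < ε2 ∧ ε0 < δ0 := by
    refine ⟨min ε1 (min ε2 δ0) / 2, by positivity, ?_, ?_, ?_⟩
    · have e1 := min_le_left ε1 (min ε2 δ0)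
      linarith
    · have e1 := min_le_right ε1 (min ε2 δ0)
      have e2 := min_le_left ε2 δ0
      linarith
    · have e1 := min_le_right ε1 (min ε2 δ0)
      have e2 := min_le_right ε2 δ0
      linarith
  obtain ⟨η, B, hη, hB, hT⟩ := nT h hκ hε0 hbd hR0
  refine ⟨η, B, hη, hB, fun y hy N => ?_⟩
  have hJn : ∀ n, (gg a b)^[n] y ∈ J := by
    intro n
    induction n with
    | zero => exact hy
    | succ n ih =>
      rw [Function.iterate_succ_apply']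
      exact h.ns.Ji _ ih
  have hyp : ∀ n, y ∈ (pre a b)^[n] univ := fun n => mem_pre.2 ⟨fun i _ => h.ns.Jn _ (hJn i), mem_univ _⟩
  obtain ⟨r1, hr1, hr⟩ : ∃ r1 : ℝ, 0 < r1 ∧ ∀ z ∈ closedBall y r1, ∀ j ∈ Finset.range (N + 1),
      z ∈ (pre a b)^[j] univ ∧ ‖(gg a b)^[j] z - (gg a b)^[j] y‖ ≤ ε0 := by
    have h1 : ∀ᶠ z in 𝓝 y, ∀ j ∈ Finset.range (N + 1), z ∈ (pre a b)^[j] univ ∧ ‖(gg a b)^[j] z - (gg a b)^[j] y‖ ≤ ε0 := by
      rw [Filter.eventually_all_finset]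
      intro j _
      refine Filter.Eventually.and ((pre_open isOpen_univ).mem_nhds (hyp j)) ?_
      have h2 : ContinuousAt (gg a b)^[j] y := (g_diff (hyp j)).continuousAt
      have h3 := (Metric.continuousAt_iff'.1 h2) ε0 hε0
      filter_upwards [h3] with z hz
      rw [← dist_eq_norm]
      exact hz.le
    obtain ⟨r1, hr1, h2⟩ := Metric.nhds_basis_closedBall.eventually_iff.1 h1
    exact ⟨r1, hr1, fun z hz => h2 hz⟩
  refine ⟨r1, hr1, fun ρ hρ hρr hgap => ?_⟩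
  have hs : 0 < ρ / 6 := by positivity
  have hgap' : ∀ z, ρ / 64 < ‖z - y‖ → ‖z - y‖ < ρ / 4 → z ∉ J := fun z hz1 hz2 hzJ =>
    absurd (hgap z hzJ hz1) (not_le.2 hz2)
  have hex : ∃ n, ¬ ∀ z ∈ closedBall y (ρ / 6), z ∈ (pre a b)^[n] univ ∧ ‖(gg a b)^[n] z - (gg a b)^[n] y‖ ≤ ε0 := by
    by_contra hcon
    push Not at hcon
    obtain ⟨n, z, hz, hw⟩ := h.ex y hy (ρ / 6) hs
    obtain ⟨e1, e2⟩ := hcon n z (ball_subset_closedBall hz)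
    exact hw ((gg a b)^[n] z) (by rw [mem_ball, dist_eq_norm]; exact lt_of_le_of_lt e2 he3)
      (rat_it (mem_pre.1 e1).1 n le_rfl)
  classical
  obtain ⟨k, hk1, hk2⟩ : ∃ k, (¬ ∀ z ∈ closedBall y (ρ / 6), z ∈ (pre a b)^[k] univ ∧ ‖(gg a b)^[k] z - (gg a b)^[k] y‖ ≤ ε0) ∧
      ∀ n, n < k → ∀ z ∈ closedBall y (ρ / 6), z ∈ (pre a b)^[n] univ ∧ ‖(gg a b)^[n] z - (gg a b)^[n] y‖ ≤ ε0 :=
    ⟨Nat.find hex, Nat.find_spec hex, fun n hn => not_not.1 (Nat.find_min hex hn)⟩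
  have hNk : N < k := by
    by_contra hcon
    push Not at hcon
    exact hk1 (fun z hz => hr z (closedBall_subset_closedBall (by linarith) hz) k (Finset.mem_range.2 (by omega)))
  obtain ⟨m, rfl⟩ : ∃ m, k = m + 1 := ⟨k - 1, by omega⟩
  have ih := hk2 m (Nat.lt_succ_self m)
  have hpre : ∀ z ∈ closedBall y (ρ / 6), z ∈ (pre a b)^[m + 1] univ := by
    intro z hz
    obtain ⟨e1, e2⟩ := ih z hz
    refine mem_pre.2 ⟨fun i hi => ?_, mem_univ _⟩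
    rcases Nat.lt_succ_iff_lt_or_eq.1 hi with h3 | rfl
    · exact (mem_pre.1 e1).1 i h3
    · exact hb2 _ (hJn i) _ (by rw [dist_eq_norm]; exact lt_of_le_of_lt e2 he2)
  have hFκ : ∀ z ∈ closedBall y (ρ / 6), ‖(gg a b)^[m + 1] z - (gg a b)^[m + 1] y‖ < κ / 2 := by
    intro z hz
    obtain ⟨e1, e2⟩ := ih z hz
    rw [Function.iterate_succ_apply', Function.iterate_succ_apply', ← dist_eq_norm, dist_comm]
    apply hcont _ (hJn m)
    rw [dist_comm, dist_eq_norm]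
    exact lt_of_le_of_lt e2 he1
  have hFR : ∀ z ∈ closedBall y (ρ / 6), ‖(gg a b)^[m + 1] z‖ ≤ R0 + 1 := by
    intro z hz
    have e1 := hbd _ (hJn (m + 1))
    have e2 := hFκ z hz
    have e3 := norm_sub_norm_le ((gg a b)^[m + 1] z) ((gg a b)^[m + 1] y)
    linarith
  have hO : IsOpen ((pre a b)^[m + 1] (univ : Set ℂ)) := pre_open isOpen_univ
  have hdF : DifferentiableOn ℂ (gg a b)^[m + 1] ((pre a b)^[m + 1] univ) := fun z hz =>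
    (g_diff hz).differentiableAt.differentiableWithinAt
  have hddF := hdF.deriv hO
  have hcl : closure (ball y (ρ / 6)) = closedBall y (ρ / 6) := closure_ball y hs.ne'
  obtain ⟨z1, hz1, hz1F⟩ : ∃ z1, ‖z1 - y‖ = ρ / 6 ∧ ε0 ≤ ‖(gg a b)^[m + 1] z1 - (gg a b)^[m + 1] y‖ := by
    by_contra hcon
    push Not at hcon
    apply hk1
    intro z hz
    refine ⟨hpre z hz, ?_⟩
    have hDC : DiffContOnCl ℂ (fun z => (gg a b)^[m + 1] z - (gg a b)^[m + 1] y) (ball y (ρ / 6)) := by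
      refine DifferentiableOn.diffContOnCl ?_
      rw [hcl]
      exact (hdF.mono hpre).sub_const _
    refine Complex.norm_le_of_forall_mem_frontier_norm_le isBounded_ball hDC (fun w hw => ?_) (hcl ▸ hz)
    rw [frontier_ball y hs.ne', mem_sphere, dist_eq_norm] at hw
    exact (hcon w hw).le
  obtain ⟨v2, hv2, v3, hv3, c1, c2, c3⟩ := nV (u := (gg a b)^[m + 1] y) hu1 hu2 hu3 hk12 hk13 hk23
  obtain ⟨r1', r2'⟩ := hT (m + 1) y ((gg a b)^[m + 1] y) v2 v3 z1 ρ hρ hgap' (hJn _) hv2 hv3 c1 c2 c3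
    (fun z hz => ⟨hpre z hz, (hFκ z hz).le, hFR z hz⟩) hz1 hz1F
  refine ⟨m + 1, hNk, fun z hz => ⟨hpre z hz, hFR z hz, ?_⟩, r1'⟩
  have hDC : DiffContOnCl ℂ (deriv (gg a b)^[m + 1]) (ball y (ρ / 6)) := by
    refine DifferentiableOn.diffContOnCl ?_
    rw [hcl]
    exact hddF.mono hpre
  have hmax : ‖deriv (gg a b)^[m + 1] z‖ ≤ B / ρ := by
    refine Complex.norm_le_of_forall_mem_frontier_norm_le isBounded_ball hDC (fun w hw => ?_) (hcl ▸ hz)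
    rw [frontier_ball y hs.ne', mem_sphere, dist_eq_norm] at hw
    rw [(g_diff (hpre w (by rw [mem_closedBall, dist_eq_norm, hw]))).deriv, le_div_iff₀ hρ]
    exact r2' w hw
  rw [(g_diff (hpre z hz)).deriv, le_div_iff₀ hρ] at hmax
  exact hmax

end Pool.Agent.H43.BE
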