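import Pool.Agent.H39.BE.Defs
import Pool.Agent.H43.BE.NGA
import Pool.Agent.H43.BE.BLA
import Pool.Agent.H43.BE.CTB

/-!
# THEOREM BEAU (no gaps): the Julia set meets the rings `{ρ / 64 < |w - c| < ρ / 4}` at a persistently recurrent critical point

`nga`: a gap gives `F = gg^[k]` on `closedBall c (ρ / 6)`, `k` large, with `|F - F c| ≥ η` on the circle of radius `ρ / 48` and `|F'| ρ ≤ B`. `bla`: the number of the factors of `F' = ∏ dg (gg^[j] z)` with zeros in `closedBall c (ρ / 48)` is bounded. `ctb`: so is the number of the critical times of the disc of radius `δ` along `f c, .., f^k c`. `PR` excludes it for large `k`.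
-/

set_option autoImplicit false

open Filter Topology Polynomial Metric Set MeasureTheory

namespace Pool.Agent.H43.BE

open Pool.Agent.H44.Fatou (rat rat_continuous)
open Pool.Agent.H32.BT (IsCrit)
open Pool.Agent.H61.TT Pool.Agent.H57.CP Pool.Agent.H3.NC
open Pool.Agent.H18.UP

variable {d : ℕ} {a b : Polynomial ℂ} {J : Set ℂ} {δ0 : ℝ}

theorem ngp {D : ℕ} {R0 : ℝ} (h : US0 d D a b J δ0 R0) (hG : Geo d a b J δ0) {c : ℂ} (hc : c ∈ J)
    (hPR : PR (rat a b) (c : OnePoint ℂ)) : ∃ r1 : ℝ, 0 < r1 ∧ ∀ ρ : ℝ, 0 < ρ → ρ ≤ r1 → ∃ w ∈ J,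
      ρ / 64 < ‖w - c‖ ∧ ‖w - c‖ < ρ / 4 := by
  classical
  obtain ⟨η, B, hη, hB, hnga⟩ := nga h
  have hR0 : 0 ≤ R0 := by
    obtain ⟨z', hz', hn⟩ := h.ns.bd 0 (c : OnePoint ℂ) ⟨c, hc, c, mem_ball_self h.ns.hδ0, rfl⟩
    exact (norm_nonneg _).trans hn
  -- the bound for the number of zeros
  obtain ⟨N0, hN0⟩ : ∃ N0 : ℕ, B * (2 / 7) ^ N0 < 48 * η := by
    have h1 : Tendsto (fun n : ℕ => B * (2 / 7 : ℝ) ^ n) atTop (𝓝 (B * 0)) :=
      (tendsto_pow_atTop_nhds_zero_of_lt_one (by norm_num) (by norm_num)).const_mul B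
    rw [mul_zero] at h1
    exact (h1.eventually_lt_const (by positivity : (0 : ℝ) < 48 * η)).exists
  obtain ⟨δ, hδ⟩ : ∃ δ : ℝ, δ = η / (1 + (R0 + 1) ^ 2) := ⟨_, rfl⟩
  have hδ0 : 0 < δ := by
    rw [hδ]
    positivity
  have hδη : δ * (1 + (R0 + 1) ^ 2) ≤ η := by
    rw [hδ]
    exact le_of_eq (div_mul_cancel₀ _ (by positivity))
  obtain ⟨N1, hN1⟩ := (hPR δ hδ0 N0).bddAbove
  obtain ⟨r1, hr1, hmain⟩ := hnga c hc (N1 + 1)
  refine ⟨r1, hr1, fun ρ hρ hρ1 => ?_⟩
  by_contra hcon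
  push Not at hcon
  obtain ⟨k, hk, hball, hcirc⟩ := hmain ρ hρ hρ1 hcon
  have hρ6 : (0 : ℝ) < ρ / 6 := by positivity
  have hρ48 : (0 : ℝ) < ρ / 48 := by positivity
  have h486 : ρ / 48 = ρ / 6 / 8 := by ring
  have hsub : closedBall c (ρ / 48) ⊆ closedBall c (ρ / 6) := closedBall_subset_closedBall (by linarith)
  obtain ⟨S, hS⟩ : ∃ S : Finset ℕ, S = (Finset.range k).filter fun j => ∃ z ∈ closedBall c (ρ / 48), dg a b ((gg a b)^[j] z) = 0 :=
    ⟨_, rfl⟩
  have hct := ctb hG hR0 (y := c) (k := k) (by omega) hρ48 hη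
    (fun z hz => ⟨(hball z (hsub hz)).1, (hball z (hsub hz)).2.1⟩) hcirc hδ0 hδη
  rw [← hS] at hct
  -- the number of the zeros
  have hSN : S.card ≤ N0 := by
    by_contra hlt
    rw [not_le] at hlt
    have hdiff : ∀ j < k, DifferentiableOn ℂ (fun z => dg a b ((gg a b)^[j] z)) (ball c (ρ / 6)) := by
      intro j hj z hz
      have h1 := (hball z (ball_subset_closedBall hz)).1
      have h2 : z ∈ (pre a b)^[j] univ := mem_pre.2 ⟨fun i hi => (mem_pre.1 h1).1 i (by omega), mem_univ _⟩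
      have h3 : DifferentiableAt ℂ (gg a b)^[j] z := (g_diff h2).differentiableAt
      have h4 : DifferentiableAt ℂ (dg a b) ((gg a b)^[j] z) := by
        unfold dg
        exact (ww a b).differentiableAt.div (b.differentiableAt.pow 2) (pow_ne_zero 2 ((mem_pre.1 h1).1 j hj))
      exact (h4.comp z h3).differentiableWithinAt
    have hprod : ∀ z, (∏ i ∈ (Finset.range k) \ S, dg a b ((gg a b)^[i] z)) * ∏ i ∈ S, dg a b ((gg a b)^[i] z) = tD a b k z := by
      intro z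
      unfold tD
      exact Finset.prod_sdiff (by rw [hS]; exact Finset.filter_subset _ _)
    have hbl := bla (y := c) hρ6 (h := fun j z => dg a b ((gg a b)^[j] z)) S
      (fun i hi => hdiff i (by
        rw [hS, Finset.mem_filter, Finset.mem_range] at hi
        exact hi.1))
      (fun i hi => by
        rw [hS, Finset.mem_filter] at hi
        rw [← h486]
        exact hi.2)
      (R := fun z => ∏ i ∈ (Finset.range k) \ S, dg a b ((gg a b)^[i] z))
      (DifferentiableOn.fun_finsetProd fun i hi => hdiff i (by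
        rw [Finset.mem_sdiff, Finset.mem_range] at hi
        exact hi.1))
      (B := B / ρ) (fun z hz => by
        rw [hprod z, le_div_iff₀ hρ]
        exact (hball z (ball_subset_closedBall hz)).2.2)
    rw [← h486] at hbl
    simp only [hprod] at hbl
    -- the mean value inequality
    have hmv : ∀ z, ‖z - c‖ = ρ / 48 → ‖(gg a b)^[k] z - (gg a b)^[k] c‖ ≤ B / ρ * (2 / 7) ^ S.card * ‖z - c‖ := by
      intro z hz
      refine Convex.norm_image_sub_le_of_norm_hasDerivWithin_le (𝕜 := ℂ) (s := closedBall c (ρ / 48)) (f := (gg a b)^[k])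
        (f' := tD a b k) (fun x hx => (g_diff (hball x (hsub hx)).1).hasDerivWithinAt) hbl (convex_closedBall _ _)
        (mem_closedBall_self hρ48.le) (by rw [mem_closedBall_iff_norm, hz])
    have hz0 : ‖(c + (ρ / 48 : ℝ)) - c‖ = ρ / 48 := by
      rw [add_sub_cancel_left, Complex.norm_real, Real.norm_of_nonneg hρ48.le]
    have h1 := (hcirc _ hz0).trans (hmv _ hz0)
    rw [hz0] at h1
    have h2 : B / ρ * (2 / 7) ^ S.card * (ρ / 48) = B * (2 / 7) ^ S.card / 48 := by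
      field_simp
    rw [h2] at h1
    have h3 : B * (2 / 7 : ℝ) ^ S.card ≤ B * (2 / 7) ^ N0 :=
      mul_le_mul_of_nonneg_left (pow_le_pow_of_le_one (by norm_num) (by norm_num) hlt.le) hB.le
    linarith
  have hmem : k - 1 ∈ {n | (CT (rat a b) (rat a b (c : OnePoint ℂ)) n δ).ncard ≤ N0} := hct.trans hSN
  have := hN1 hmem
  omega

/-- periodic points in the rings, with an absolute constant -/
theorem rng_u {D : ℕ} {R0 : ℝ} (h : US0 d D a b J δ0 R0) (hG : Geo d a b J δ0)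
    (hPR : ∀ c ∈ J, Cr a b c → PR (rat a b) (c : OnePoint ℂ)) : Pool.Agent.H39.BE.Rng a b J (1 / 64) := by
  have hn := h.ns
  have h1 : ∀ᶠ r in 𝓝[>] (0 : ℝ), ∀ c ∈ {c : ℂ | Cr a b c}, c ∈ J → ∀ ρ : ℝ, 0 < ρ → ρ ≤ r → ∃ w ∈ J,
      ρ / 64 < ‖w - c‖ ∧ ‖w - c‖ < ρ / 4 := by
    rw [Filter.eventually_all_finite (cr_fin hG)]
    intro c hcr
    by_cases hc : c ∈ J
    · obtain ⟨r1, hr1, h2⟩ := ngp h hG hc (hPR c hc hcr)
      have h4 : ∀ᶠ r in 𝓝[>] (0 : ℝ), r < r1 := nhdsWithin_le_nhds (Iio_mem_nhds hr1)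
      filter_upwards [h4] with r hr _ ρ hρ hρr
      exact h2 ρ hρ (hρr.trans hr.le)
    · exact Filter.Eventually.of_forall fun r h0 => absurd h0 hc
  obtain ⟨r1, h2, h3⟩ := (h1.and self_mem_nhdsWithin).exists
  refine ⟨r1, h3, fun c hc hcr ρ hρ hρ1 => ?_⟩
  obtain ⟨w, hw, hw1, hw2⟩ := h2 c hcr hc ρ hρ hρ1
  have hm : 0 < min (‖w - c‖ - ρ / 64) (ρ / 4 - ‖w - c‖) := lt_min (by linarith) (by linarith)
  obtain ⟨x, hx, hxw, p, hp, hpx⟩ := h.per w hw _ hm
  have hx1 : ‖x - w‖ < ‖w - c‖ - ρ / 64 := lt_of_lt_of_le hxw (min_le_left _ _)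
  have hx2 : ‖x - w‖ < ρ / 4 - ‖w - c‖ := lt_of_lt_of_le hxw (min_le_right _ _)
  refine ⟨x, hx, ?_, ?_, p, hp, ?_⟩
  · have h5 : ‖w - c‖ ≤ ‖x - c‖ + ‖x - w‖ := by
      have e : w - c = (x - c) - (x - w) := by ring
      rw [e]
      exact norm_sub_le _ _
    linarith
  · have h5 : ‖x - c‖ ≤ ‖x - w‖ + ‖w - c‖ := by
      have e : x - c = (x - w) + (w - c) := by ring
      rw [e]
      exact norm_add_le _ _
    linarith
  · exact mem_pre.2 ⟨fun i _ => hn.Jn _ (itJ hn hx i), hpx⟩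

end Pool.Agent.H43.BE
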