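import Pool.Agent.H43.BE.NGP
import Pool.Agent.H64.NC.PRT
import Pool.Agent.H66.UP.CS
import Pool.Agent.H18.UP.FNG

/-!
# THEOREM BEAU (no gaps): the ring condition with an absolute constant, in the charts

`rng_s`: Julia set = sphere (the last part of the proof of `geo_s`, H66/UP/GS). `rng_js`: Julia set not the sphere (`rng_u`, `pr_conj`).
-/

set_option autoImplicit false

open Filter Topology Polynomial Metric Set MeasureTheory

namespace Pool.Agent.H43.BE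

open Pool.Agent.H44.Fatou (rat rat_continuous rat_coe rat_coe_of_ne pt crit_coe)
open Pool.Agent.H32.BT Pool.Agent.H79.Eul Pool.Agent.H79.Par
open Pool.Agent.H35.EX Pool.Agent.H44.RR Pool.Agent.H56.HR Pool.Agent.H44.RC Pool.Agent.H47.RJ
open Pool.Agent.H47.NM Pool.Agent.H47.NN Pool.Agent.H44.ND Pool.Agent.H79.ES Pool.Agent.H44.RG
open Pool.Agent.H44.CP Pool.Agent.H57.CF Pool.Agent.H47.PS Pool.Agent.H64.NC
open Pool.Agent.H61.TT Pool.Agent.H57.CP Pool.Agent.H3.NC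
open Pool.Agent.H18.UP
open Pool.Agent.H39.BE (Rng)

variable {d : ℕ}

theorem rng_mono {a b : Polynomial ℂ} {J : Set ℂ} {θ θ' : ℝ} (h : Rng a b J θ) (hθ : θ' ≤ θ) : Rng a b J θ' := by
  obtain ⟨r1, hr1, h1⟩ := h
  refine ⟨r1, hr1, fun c hc hcr ρ hρ hρ1 => ?_⟩
  obtain ⟨w, hw, h2, h3, h4⟩ := h1 c hc hcr ρ hρ hρ1
  exact ⟨w, hw, (mul_le_mul_of_nonneg_right hθ hρ.le).trans h2, h3, h4⟩

theorem rng_s {v : E d} (hd : 2 ≤ d) (hcop : IsCoprime (pol v.1) (pol v.2))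
    (hdeg : max (pol v.1).natDegree (pol v.2).natDegree = d) (hJ : JS (Rf v) = univ)
    (hi : Rf v OnePoint.infty = OnePoint.infty) : Rng (pol v.1) (pol v.2) univ (1 / 64) := by
  refine rng_mono (θ := 1 / 8) ?_ (by norm_num)
  have hinf : rat (pol v.1) (pol v.2) OnePoint.infty = OnePoint.infty := hi
  have hJm : ∀ x : OnePoint ℂ, x ∈ JS (Rf v) := fun x => hJ ▸ mem_univ x
  have hper : ∀ (x : ℂ) (p : ℕ), 0 < p → (rat (pol v.1) (pol v.2))^[p] (x : OnePoint ℂ) = (x : OnePoint ℂ) →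
      ∀ i : ℕ, (rat (pol v.1) (pol v.2))^[i] (x : OnePoint ℂ) ≠ OnePoint.infty := by
    intro x p hp hx i h1
    have h2 : i ≤ p * i := Nat.le_mul_of_pos_left _ hp
    have h3 := inf_it hinf h2 h1
    rw [Function.iterate_mul, Function.iterate_fixed hx] at h3
    exact OnePoint.coe_ne_infty _ h3
  refine ⟨1, one_pos, fun c _ hc ρ hρ _ => ?_⟩
  have hU : (fun z : ℂ => (z : OnePoint ℂ)) '' ball (c + ((3 * ρ / 16 : ℝ) : ℂ)) (ρ / 16) ∈
      𝓝 (((c + ((3 * ρ / 16 : ℝ) : ℂ) : ℂ)) : OnePoint ℂ) :=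
    (OnePoint.isOpenEmbedding_coe.isOpenMap _ isOpen_ball).mem_nhds
      ⟨_, mem_ball_self (by positivity), rfl⟩
  obtain ⟨x, ⟨w, hw, rfl⟩, N, hN, hwN⟩ := Pool.Agent.H44.NR.per_dense hd hcop hdeg (hJm _) hU
  have hwN' : (rat (pol v.1) (pol v.2))^[N] (w : OnePoint ℂ) = (w : OnePoint ℂ) := hwN
  rw [mem_ball, dist_eq_norm] at hw
  have h16 : ‖((3 * ρ / 16 : ℝ) : ℂ)‖ = 3 * ρ / 16 := by
    rw [Complex.norm_real, Real.norm_eq_abs, abs_of_pos (by positivity)]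
  have e : w - c = (w - (c + ((3 * ρ / 16 : ℝ) : ℂ))) + ((3 * ρ / 16 : ℝ) : ℂ) := by ring
  refine ⟨w, mem_univ _, ?_, ?_, N, hN, ?_⟩
  · have h1 := norm_sub_norm_le (((3 * ρ / 16 : ℝ) : ℂ)) (-(w - (c + ((3 * ρ / 16 : ℝ) : ℂ))))
    rw [norm_neg, h16] at h1
    have e2 : ((3 * ρ / 16 : ℝ) : ℂ) - -(w - (c + ((3 * ρ / 16 : ℝ) : ℂ))) = w - c := by ring
    rw [e2] at h1
    linarith
  · rw [e]
    refine (norm_add_le _ _).trans ?_
    rw [h16]
    linarith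
  · rw [mem_pre]
    have horb := fun i => fin_orba hinf (hper w N hN hwN') i
    refine ⟨fun i _ => (horb i).1, ?_⟩
    have h1 := (horb N).2
    rw [hwN'] at h1
    exact (OnePoint.coe_injective h1).symm

/-- persistent recurrence in the chart -/
theorem pr_chart {v u : E d} {φ : OnePoint ℂ ≃ₜ OnePoint ℂ} (conj : ∀ x, Rf u (φ x) = φ (Rf v x))
    (hjs : ∀ x, φ x ∈ JS (Rf u) ↔ x ∈ JS (Rf v)) (hPR : ∀ c, IsCrit (Rf v) c → c ∈ JS (Rf v) → PR (Rf v) c) :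
    ∀ c, IsCrit (Rf u) c → c ∈ JS (Rf u) → PR (Rf u) c := by
  intro c hc hcJ
  obtain ⟨c', rfl⟩ := φ.surjective c
  have h1 := hPR c' ((isCrit_conj φ conj c').1 hc) ((hjs c').1 hcJ)
  have h2 : ∀ x, φ.symm (Rf u x) = Rf v (φ.symm x) := by
    intro x
    apply φ.injective
    rw [φ.apply_symm_apply, ← conj, φ.apply_symm_apply]
  refine pr_conj φ.symm h2 ?_
  rw [φ.symm_apply_apply]
  exact h1

/-- Julia set not the sphere -/
theorem rng_js {v u : E d} {φ : OnePoint ℂ ≃ₜ OnePoint ℂ} {K : ℝ}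
    (bil : ∀ x y, chord (φ x) (φ y) ≤ K * chord x y ∧ chord x y ≤ K * chord (φ x) (φ y))
    (conj : ∀ x, Rf u (φ x) = φ (Rf v x)) {D : ℕ} {δ0 R0 : ℝ} (hUS : US d D (pol u.1) (pol u.2) (JC u) δ0 R0)
    (hPR : ∀ c, IsCrit (Rf v) c → c ∈ JS (Rf v) → PR (Rf v) c) : Rng (pol u.1) (pol u.2) (JC u) (1 / 64) := by
  have hG := plg hUS
  refine rng_u hUS.toUS0 hG fun c hc hcr => ?_
  have h1 : IsCrit (Rf u) (c : OnePoint ℂ) := (crit_iff hG hcr.1).2 hcr.2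
  exact pr_chart conj (fun x => not_congr (Pool.Agent.H76.SU.fs_conj bil conj x)) hPR _ h1 hc

end Pool.Agent.H43.BE
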